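import Mathlib

namespace Pool.Agent.MP_b75ab8_co

/-- `P` is a partition of `[n]^d` into nonempty boxes `B 0 × ⋯ × B (d-1)`. -/
def IsBoxPartition {n d : ℕ} (P : Finset (Fin d → Finset (Fin n))) : Prop :=
  (∀ B ∈ P, ∀ i : Fin d, (B i).Nonempty) ∧
    ∀ x : Fin d → Fin n, ∃! B, B ∈ P ∧ ∀ i : Fin d, x i ∈ B i

/-- Every axis-parallel line of `[n]^d` meets at least `k` of the boxes of `P`. -/
def IsPiercing {n d : ℕ} (k : ℕ) (P : Finset (Fin d → Finset (Fin n))) : Prop :=
  ∀ i : Fin d, ∀ a : Fin d → Fin n,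
    k ≤ (P.filter (fun B => ∃ t : Fin n, ∀ j : Fin d, Function.update a i t j ∈ B j)).card

/-- `p(n,d,k)`: the least number of boxes in a partition of `[n]^d` into nonempty boxes with the
`k`-piercing property. -/
noncomputable def pNum (n d k : ℕ) : ℕ :=
  sInf {m | ∃ P : Finset (Fin d → Finset (Fin n)),
    IsBoxPartition P ∧ IsPiercing k P ∧ P.card = m}

end Pool.Agent.MP_b75ab8_co
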