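import Mathlib
import Pool.Agent.Lib.MP_b75ab8_co.Defs

/-!
The construction of a `k`-piercing partition of `[n]^d` with at most
`d * 2^(d-1) * k + 2^(d*d)` boxes.
-/

namespace Pool.Agent.MP_b75ab8_co

open Finset

variable {n d k : ℕ}

/-- Codes of the boxes. -/
abbrev Code (d k : ℕ) := (Fin d × (Fin d → Bool) × Fin k) ⊕ (Fin d → Fin d → Bool)

/-- The box of a code. -/
noncomputable def boxOf (φ : Fin n → (Fin d → Bool) × Fin k) : Code d k → Fin d → Finset (Fin n)
  | Sum.inl (i, β, t) => fun j =>
      if j = i then univ.filter (fun v => (φ v).2 = t ∧ ∀ l, l ≠ i → ((φ v).1 l = β l ↔ i < l))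
      else univ.filter (fun v => (φ v).1 i = β j)
  | Sum.inr M => fun j => univ.filter (fun v => ∀ l, l ≠ j → (φ v).1 l = M j l)

/-- The codes in use. -/
def Valid : Code d k → Prop
  | Sum.inl (i, β, _) => β i = false
  | Sum.inr M => (∀ i, M i i = false) ∧ ∀ i, ¬ ∀ j, j ≠ i → (M i j = M j i ↔ i < j)

/-- The code of a point. -/
theorem exists_code (φ : Fin n → (Fin d → Bool) × Fin k) (x : Fin d → Fin n) :
    ∃ c : Code d k, Valid c ∧ ∀ j, x j ∈ boxOf φ c j := by
  by_cases h : ∃ i, ∀ j, j ≠ i → ((φ (x i)).1 j = (φ (x j)).1 i ↔ i < j)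
  · obtain ⟨i, hi⟩ := h
    refine ⟨Sum.inl (i, fun j => if j = i then false else (φ (x j)).1 i, (φ (x i)).2), ?_, ?_⟩
    · simp [Valid]
    · intro j
      by_cases hj : j = i
      · subst hj
        simp only [boxOf, if_true, mem_filter, mem_univ, true_and]
        intro l hl
        simp only [hl, if_false]
        exact hi l hl
      · simp [boxOf, hj]
  · push Not at h
    refine ⟨Sum.inr (fun i j => if j = i then false else (φ (x i)).1 j), ?_, ?_⟩
    · refine ⟨by simp, ?_⟩
      intro i hi
      obtain ⟨j, hj, hij⟩ := h i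
      have := hi j hj
      simp only [hj, hj.symm, if_false] at this
      rcases hij with ⟨h1, h2⟩ | ⟨h1, h2⟩
      · exact absurd (this.1 h1) (not_lt.mpr h2)
      · exact h1 (this.2 h2)
    · intro j
      simp only [boxOf, mem_filter, mem_univ, true_and]
      intro l hl
      simp [hl]

theorem code_unique (φ : Fin n → (Fin d → Bool) × Fin k) (x : Fin d → Fin n) (c c' : Code d k)
    (hc : Valid c) (hc' : Valid c') (h : ∀ j, x j ∈ boxOf φ c j) (h' : ∀ j, x j ∈ boxOf φ c' j) :
    c = c' := by
  -- information carried by membership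
  have key : ∀ i β t, Valid (Sum.inl (i, β, t) : Code d k) →
      (∀ j, x j ∈ boxOf φ (Sum.inl (i, β, t)) j) →
      ((φ (x i)).2 = t ∧ (∀ j, β j = if j = i then false else (φ (x j)).1 i) ∧
        ∀ l, l ≠ i → ((φ (x i)).1 l = (φ (x l)).1 i ↔ i < l)) := by
    intro i β t hv hm
    have hβ : ∀ j, j ≠ i → (φ (x j)).1 i = β j := by
      intro j hj
      have := hm j
      simpa [boxOf, hj] using this
    have hi := hm i
    simp only [boxOf, if_true, mem_filter, mem_univ, true_and] at hi
    refine ⟨hi.1, ?_, ?_⟩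
    · intro j
      by_cases hj : j = i
      · subst hj; simpa [Valid] using hv
      · simp [hj, hβ j hj]
    · intro l hl
      rw [hβ l hl]
      exact hi.2 l hl
  have key2 : ∀ M, Valid (Sum.inr M : Code d k) →
      (∀ j, x j ∈ boxOf φ (Sum.inr M) j) →
      ((∀ i j, M i j = if j = i then false else (φ (x i)).1 j) ∧
        ∀ i, ¬ ∀ l, l ≠ i → ((φ (x i)).1 l = (φ (x l)).1 i ↔ i < l)) := by
    intro M hv hm
    have hM : ∀ i j, j ≠ i → (φ (x i)).1 j = M i j := by
      intro i j hj
      have := hm i
      simp only [boxOf, mem_filter, mem_univ, true_and] at this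
      exact this j hj
    refine ⟨?_, ?_⟩
    · intro i j
      by_cases hj : j = i
      · subst hj; simpa using hv.1 j
      · simp [hj, hM i j hj]
    · intro i hi
      refine hv.2 i ?_
      intro j hj
      have := hi j hj
      rw [hM i j hj, hM j i hj.symm] at this
      exact this
  rcases c with ⟨i, β, t⟩ | M <;> rcases c' with ⟨i', β', t'⟩ | M'
  · obtain ⟨h1, h2, h3⟩ := key i β t hc h
    obtain ⟨h1', h2', h3'⟩ := key i' β' t' hc' h'
    have hii : i = i' := by
      by_contra hne
      have a := h3 i' (Ne.symm hne)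
      have b := h3' i hne
      rcases lt_or_gt_of_ne hne with hlt | hlt
      · have := a.2 hlt
        exact absurd (b.1 this.symm) (not_lt.mpr hlt.le)
      · have := b.2 hlt
        exact absurd (a.1 this.symm) (not_lt.mpr hlt.le)
    subst hii
    have hβ : β = β' := by
      funext j; rw [h2 j, h2' j]
    subst hβ
    rw [← h1, ← h1']
  · exact absurd (key i β t hc h).2.2 ((key2 M' hc' h').2 i)
  · exact absurd (key i' β' t' hc' h').2.2 ((key2 M hc h).2 i')
  · have : M = M' := by
      funext i j
      rw [(key2 M hc h).1 i j, (key2 M' hc' h').1 i j]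
    rw [this]

theorem box_nonempty (φ : Fin n → (Fin d → Bool) × Fin k) (hφ : Function.Surjective φ)
    (hk : 0 < k) (c : Code d k) (j : Fin d) : (boxOf φ c j).Nonempty := by
  rcases c with ⟨i, β, t⟩ | M
  · by_cases hj : j = i
    · subst hj
      obtain ⟨v, hv⟩ := hφ (fun l => if j < l then β l else !(β l), t)
      refine ⟨v, ?_⟩
      simp only [boxOf, if_true, mem_filter, mem_univ, true_and, hv]
      intro l hl
      by_cases h : j < l
      · simp [h]
      · simp [h]
    · obtain ⟨v, hv⟩ := hφ (fun _ => β j, t)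
      refine ⟨v, ?_⟩
      simp [boxOf, hj, hv]
  · obtain ⟨v, hv⟩ := hφ (fun l => M j l, ⟨0, hk⟩)
    refine ⟨v, ?_⟩
    simp [boxOf, hv]

open Classical in
/-- The partition. -/
noncomputable def thePartition (φ : Fin n → (Fin d → Bool) × Fin k) :
    Finset (Fin d → Finset (Fin n)) :=
  ((univ : Finset (Code d k)).filter Valid).image (boxOf φ)

theorem isBoxPartition (φ : Fin n → (Fin d → Bool) × Fin k) (hφ : Function.Surjective φ)
    (hk : 0 < k) : IsBoxPartition (thePartition φ) := by
  classical
  constructor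
  · intro B hB i
    simp only [thePartition, mem_image, mem_filter] at hB
    obtain ⟨c, _, rfl⟩ := hB
    exact box_nonempty φ hφ hk c i
  · intro x
    obtain ⟨c, hc, hx⟩ := exists_code φ x
    refine ⟨boxOf φ c, ⟨?_, hx⟩, ?_⟩
    · simp only [thePartition, mem_image, mem_filter, mem_univ, true_and]
      exact ⟨c, hc, rfl⟩
    · rintro B ⟨hB, hxB⟩
      simp only [thePartition, mem_image, mem_filter, mem_univ, true_and] at hB
      obtain ⟨c', hc', rfl⟩ := hB
      rw [code_unique φ x c c' hc hc' hx hxB]

theorem isPiercing (φ : Fin n → (Fin d → Bool) × Fin k) (hφ : Function.Surjective φ)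
    (hk : 0 < k) : IsPiercing k (thePartition φ) := by
  classical
  intro i a
  let β : Fin d → Bool := fun j => if j = i then false else (φ (a j)).1 i
  let f : Fin k → (Fin d → Finset (Fin n)) := fun t => boxOf φ (Sum.inl (i, β, t))
  have hinj : Function.Injective f := by
    intro t t' htt
    obtain ⟨v, hv⟩ := box_nonempty φ hφ hk (Sum.inl (i, β, t)) i
    have hv' : v ∈ boxOf φ (Sum.inl (i, β, t')) i := by
      have := congrFun htt i
      simp only [f] at this
      rw [← this]; exact hv
    simp only [boxOf, if_true, mem_filter, mem_univ, true_and] at hv hv'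
    rw [← hv.1, ← hv'.1]
  have hcard : k = ((univ : Finset (Fin k)).image f).card := by
    rw [card_image_of_injective _ hinj]; simp
  calc k = ((univ : Finset (Fin k)).image f).card := hcard
    _ ≤ _ := by
      apply card_le_card
      intro B hB
      simp only [mem_image, mem_univ, true_and] at hB
      obtain ⟨t, rfl⟩ := hB
      rw [mem_filter]
      refine ⟨?_, ?_⟩
      · simp only [thePartition, mem_image, mem_filter, mem_univ, true_and]
        exact ⟨Sum.inl (i, β, t), by simp [Valid, β], rfl⟩
      · obtain ⟨v, hv⟩ := box_nonempty φ hφ hk (Sum.inl (i, β, t)) i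
        refine ⟨v, ?_⟩
        intro j
        by_cases hj : j = i
        · subst hj; simpa [f] using hv
        · simp [f, boxOf, hj, β]


theorem card_bool_fun (i : Fin d) :
    (Fintype.piFinset (fun j : Fin d => if j = i then ({false} : Finset Bool) else univ)).card
      = 2 ^ (d - 1) := by
  classical
  rw [Fintype.card_piFinset]
  have h : ∀ j : Fin d, (if j = i then ({false} : Finset Bool) else univ).card
      = if j = i then 1 else 2 := by
    intro j; split_ifs <;> simp
  rw [Finset.prod_congr rfl (fun j _ => h j), Finset.prod_ite]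
  simp only [prod_const_one, prod_const, one_mul]
  congr 1
  rw [Finset.filter_not, Finset.card_sdiff_of_subset (Finset.filter_subset _ _)]
  have h1 : (univ.filter (fun x : Fin d => x = i)) = {i} := by
    ext x; simp
  rw [h1]
  simp

theorem card_partition (φ : Fin n → (Fin d → Bool) × Fin k) :
    (thePartition φ).card ≤ d * 2 ^ (d - 1) * k + 2 ^ (d * (d - 1)) := by
  classical
  let A : Finset (Code d k) :=
    (univ : Finset (Fin d)).biUnion (fun i =>
      ((Fintype.piFinset (fun j : Fin d => if j = i then ({false} : Finset Bool) else univ)) ×ˢ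
        (univ : Finset (Fin k))).image (fun p => Sum.inl (i, p.1, p.2)))
  let B : Finset (Code d k) :=
    (Fintype.piFinset (fun i : Fin d =>
      Fintype.piFinset (fun j : Fin d => if j = i then ({false} : Finset Bool) else univ))).image
        Sum.inr
  have hsub : ((univ : Finset (Code d k)).filter Valid) ⊆ A ∪ B := by
    intro c hc
    simp only [mem_filter, mem_univ, true_and] at hc
    rw [mem_union]
    rcases c with ⟨i, β, t⟩ | M
    · left
      simp only [A, mem_biUnion, mem_univ, true_and, mem_image, mem_product]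
      refine ⟨i, (β, t), ⟨?_, trivial⟩, rfl⟩
      rw [Fintype.mem_piFinset]
      intro j
      by_cases hj : j = i
      · subst hj
        simpa [Valid] using hc
      · simp [hj]
    · right
      simp only [B, mem_image]
      refine ⟨M, ?_, rfl⟩
      rw [Fintype.mem_piFinset]
      intro i
      rw [Fintype.mem_piFinset]
      intro j
      by_cases hj : j = i
      · subst hj
        simpa using hc.1 j
      · simp [hj]
  have hA : A.card ≤ d * 2 ^ (d - 1) * k := by
    calc A.card ≤ ∑ i : Fin d, 2 ^ (d - 1) * k := by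
          refine card_biUnion_le.trans (Finset.sum_le_sum fun i _ => ?_)
          refine card_image_le.trans ?_
          rw [card_product, card_bool_fun]
          simp
      _ = d * 2 ^ (d - 1) * k := by simp [mul_assoc]
  have hB : B.card ≤ 2 ^ (d * (d - 1)) := by
    refine card_image_le.trans ?_
    rw [Fintype.card_piFinset]
    simp only [card_bool_fun]
    simp [← pow_mul, mul_comm]
  calc (thePartition φ).card ≤ ((univ : Finset (Code d k)).filter Valid).card := card_image_le
    _ ≤ (A ∪ B).card := card_le_card hsub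
    _ ≤ A.card + B.card := card_union_le _ _
    _ ≤ _ := Nat.add_le_add hA hB

theorem exists_surj (hk : 0 < k) (hn : 2 ^ d * k ≤ n) :
    ∃ φ : Fin n → (Fin d → Bool) × Fin k, Function.Surjective φ := by
  classical
  have : Nonempty (Fin k) := ⟨⟨0, hk⟩⟩
  have hcard : Fintype.card ((Fin d → Bool) × Fin k) ≤ Fintype.card (Fin n) := by
    simpa using hn
  obtain ⟨g⟩ := Function.Embedding.nonempty_of_card_le hcard
  exact ⟨Function.invFun g, Function.invFun_surjective g.injective⟩

/-- The partition with `k`-piercing and few boxes. -/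
theorem exists_partition (hk : 0 < k) (hn : 2 ^ d * k ≤ n) :
    ∃ P : Finset (Fin d → Finset (Fin n)), IsBoxPartition P ∧ IsPiercing k P ∧
      P.card ≤ d * 2 ^ (d - 1) * k + 2 ^ (d * (d - 1)) := by
  obtain ⟨φ, hφ⟩ := exists_surj (n := n) (d := d) hk hn
  exact ⟨thePartition φ, isBoxPartition φ hφ hk, isPiercing φ hφ hk, card_partition φ⟩

theorem pNum_le (hk : 0 < k) (hn : 2 ^ d * k ≤ n) :
    pNum n d k ≤ d * 2 ^ (d - 1) * k + 2 ^ (d * (d - 1)) := by
  obtain ⟨P, h1, h2, h3⟩ := exists_partition (n := n) (d := d) hk hn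
  have hm : P.card ∈ {m | ∃ P : Finset (Fin d → Finset (Fin n)),
      IsBoxPartition P ∧ IsPiercing k P ∧ P.card = m} := ⟨P, h1, h2, rfl⟩
  exact (Nat.sInf_le hm).trans h3

open Filter Topology in
theorem const_le (q : ℕ → ℕ) (C : ℝ) (hq : ∀ k, 2 ≤ k → ∀ᶠ n in atTop, pNum n d k = q k)
    (hC : Tendsto (fun k : ℕ => (q k : ℝ) / k) atTop (𝓝 C)) : C ≤ (d : ℝ) * 2 ^ (d - 1) := by
  have hbound : ∀ k, 2 ≤ k → (q k : ℝ) / k ≤ (d : ℝ) * 2 ^ (d - 1) + 2 ^ (d * (d - 1)) / k := by
    intro k hk
    obtain ⟨n, hn1, hn2⟩ := ((hq k hk).and (eventually_ge_atTop (2 ^ d * k))).exists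
    have h := pNum_le (n := n) (d := d) (k := k) (by omega) hn2
    rw [hn1] at h
    have h' : (q k : ℝ) ≤ (d : ℝ) * 2 ^ (d - 1) * k + 2 ^ (d * (d - 1)) := by exact_mod_cast h
    have hk0 : (0 : ℝ) < k := by
      have : 0 < k := by omega
      exact_mod_cast this
    rw [div_le_iff₀ hk0, add_mul, div_mul_cancel₀ _ hk0.ne']
    exact h'
  have hlim : Tendsto (fun k : ℕ => (d : ℝ) * 2 ^ (d - 1) + 2 ^ (d * (d - 1)) / (k : ℝ)) atTop
      (𝓝 ((d : ℝ) * 2 ^ (d - 1) + 0)) :=
    tendsto_const_nhds.add (tendsto_const_div_atTop_nhds_zero_nat _)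
  rw [add_zero] at hlim
  refine le_of_tendsto_of_tendsto hC hlim ?_
  filter_upwards [eventually_ge_atTop 2] with k hk
  exact hbound k hk

end Pool.Agent.MP_b75ab8_co
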